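import Pool.Agent.Helper95.GB.RD.Pot
import Pool.Agent.Helper95.GB.GT.Base

/-! # GB/RD/Red: the reduced complex has the same fundamental group (stub, prove in place)

`exists_base`: `base v = bD v'` if `v = iv v'`, otherwise any half-edge at `v` (`surj`).  Third claim: by `cov`; if all half-edges at
`vt d` are equal to `d` then `base (vt d) = d`.  Fourth claim: `vt (jD j) = iv (S.vt j)`, so `base _ = bD (S.vt j) ≠ jD j` (`inj`).

`pid_red`.  Let `μ : (E' →₀ ℕ) ≃+ (E →₀ ℕ)` be `Finsupp.domCongr R.ie`, `μ (δ e) = δ (ie e)`.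
Base point: the walk in `G.cx` from `c` to `⟨∅, rh base c.occ c.num⟩` (move the particles one by one; induction on `occ`) and
`pid_base`; so assume that `D` is a `PiD` at `⟨∅, M₀⟩`, `M₀ = rh base c.occ c.num`; let `M = μ.symm M₀` (number of particles: sums).
Labels: `gg d occ num = D.g ⟨(d, ⟨occ, num⟩), _⟩` if `vt d ∉ occ` and `1` otherwise; `GRel G gg` by `D.sq`.  `exists_pot` gives `Φ`.
`g' (j, N) = (gg (bD (S.vt j)) ∅ (μ N))⁻¹ * gg (jD j) ∅ (μ N)`.
* `sq`: let `i, j, N`, `v = iv (vt i) ≠ w = iv (vt j)`, `a = bD (vt i)`, `a' = jD i`, `b = bD (vt j)`, `b' = jD j`, `m = μ N`.  `GRel` with `occ = ∅`: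
`gg x {w} m * gg y ∅ (m + δ x.1) = gg y {v} m * gg x ∅ (m + δ y.1)` for `x ∈ {a, a'}`, `y ∈ {b, b'}`.  Solving for `gg x ∅ (m + δ y.1)` and
inserting: both sides of the claim are `(gg b ∅ (m + δ a.1))⁻¹ * (gg a {w} m)⁻¹ * gg a' {w} m * gg b' ∅ (m + δ a'.1)`.
* `surj`: claim: for every walk `w` of `G.cx` from `x` to `y` there is a walk `w'` of `S.cx` from `μ.symm (rh x)` to `μ.symm (rh y)` with
`val D.g w = Φ x * val g' w' * (Φ y)⁻¹` (`rh x = rh base x.occ x.num`).  Induction; for one forward edge `(d, ⟨occ, num⟩)`, `v = vt d`: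
if `d = base v` then `w' = []` and the claim is the second property of `Φ`.  Otherwise `d = jD j` and `w' = [((j, μ.symm (rh occ num)), true)]`;
use the second and third property of `Φ`.  For closed walks at `⟨∅, M₀⟩`: `Φ = 1`.
* `univ`: given `l`, `hl`.  Define `l'` on `G.cx`: `l' (d, ⟨occ, num⟩) = 1` if `d = base (vt d)`, and `l (j, μ.symm (rh occ num))` if `d = jD j`.
`Lab`: for a 2-cell with `x, y, m`: if both are base half-edges trivial; if one is: `rh (insert v occ) num = rh occ num + δ (base v).1`; if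
`x = jD i`, `y = jD j`: this is `hl` for `i, j`, `N = μ.symm (rh occ num)` (`S.vt i ≠ S.vt j`).
`D.univ` gives `φ`.  A walk `w'` of `S.cx` from `N₁` to `N₂` lifts to a walk `w` of `G.cx` from `⟨∅, μ N₁⟩` to `⟨∅, μ N₂⟩` by
`(j, N) ↦ [(bD, N) backwards, (jD j, N) forwards]` (through `⟨{v}, μ N⟩`), with `val D.g w = val g' w'`, `val l' w = val l w'`.
-/

set_option autoImplicit false

namespace GB

theorem Rz.exists_base {V E V' J E' : Type} {G : Gr V E} {S : DG V' J E'} (R : Rz G S) :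
    ∃ base : V → Dart E, (∀ v, G.vt (base v) = v) ∧ (∀ v', base (R.iv v') = R.bD v') ∧
      (∀ d, d = base (G.vt d) ∨ ∃ j, R.jD j = d) ∧
      (∀ j, R.jD j ≠ base (G.vt (R.jD j))) := by
  classical
  let base : V → Dart E := fun v => if h : ∃ v', R.iv v' = v then R.bD h.choose else
    (R.surj v).choose
  have h1 : ∀ v, G.vt (base v) = v := by
    intro v
    by_cases h : ∃ v', R.iv v' = v
    · have : base v = R.bD h.choose := dif_pos h
      rw [this, R.bD_vt]
      exact h.choose_spec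
    · have : base v = (R.surj v).choose := dif_neg h
      rw [this]
      exact (R.surj v).choose_spec
  have h2 : ∀ v', base (R.iv v') = R.bD v' := by
    intro v'
    have h : ∃ v'', R.iv v'' = R.iv v' := ⟨v', rfl⟩
    have h3 : base (R.iv v') = R.bD h.choose := dif_pos h
    rw [h3, R.iv_inj h.choose_spec]
  refine ⟨base, h1, h2, ?_, ?_⟩
  · intro d
    rcases R.cov d with h | ⟨v, hv⟩ | h
    · exact Or.inr h
    · left
      rw [← hv, R.bD_vt, h2]
    · left
      exact (h _ (h1 _)).symm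
  · intro j hj
    rw [R.jD_vt, h2] at hj
    have h3 : (Sum.elim R.jD R.bD) (.inl j) = (Sum.elim R.jD R.bD) (.inr (S.vt j)) := hj
    exact absurd (R.inj h3) (by simp)

private noncomputable def mkE {V E : Type} [DecidableEq V] (G : Gr V E) (d : Dart E)
    (occ : Finset V) (num : E →₀ ℕ) (h : G.vt d ∉ occ) : G.cx.Ed :=
  (⟨(d, ⟨occ, num⟩), h⟩ : {p : Dart E × Conf V E // G.vt p.1 ∉ p.2.occ})

private theorem mkE_s {V E : Type} [DecidableEq V] (G : Gr V E) (d : Dart E)
    (occ : Finset V) (num : E →₀ ℕ) (h : G.vt d ∉ occ) :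
    G.cx.s (mkE G d occ num h) = (⟨insert (G.vt d) occ, num⟩ : Conf V E) := rfl

private theorem mkE_t {V E : Type} [DecidableEq V] (G : Gr V E) (d : Dart E)
    (occ : Finset V) (num : E →₀ ℕ) (h : G.vt d ∉ occ) :
    G.cx.t (mkE G d occ num h) = (⟨occ, num + δ d.1⟩ : Conf V E) := rfl

private theorem exists_mkE {V E : Type} [DecidableEq V] (G : Gr V E) (a : G.cx.Ed) :
    ∃ d occ num h, a = mkE G d occ num h := by
  obtain ⟨⟨d, ⟨occ, num⟩⟩, h⟩ := (a : {p : Dart E × Conf V E // G.vt p.1 ∉ p.2.occ})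
  exact ⟨d, occ, num, h, rfl⟩

private theorem rh_add {V E : Type} (base : V → Dart E) (occ : Finset V) (num num' : E →₀ ℕ) :
    rh base occ (num + num') = rh base occ num + num' := by
  unfold rh
  rw [add_right_comm]

private theorem rh_insert {V E : Type} [DecidableEq V] (base : V → Dart E) (v : V)
    (occ : Finset V) (num : E →₀ ℕ) (h : v ∉ occ) :
    rh base (insert v occ) num = rh base occ num + δ (base v).1 := by
  unfold rh
  rw [Finset.sum_insert h, add_assoc, add_comm (δ (base v).1)]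

private theorem rh_empty {V E : Type} (base : V → Dart E) (num : E →₀ ℕ) :
    rh base ∅ num = num := by
  unfold rh
  simp

private theorem base_walk {V E : Type} [DecidableEq V] (G : Gr V E) (base : V → Dart E)
    (hb : ∀ v, G.vt (base v) = v) (occ : Finset V) : ∀ num : E →₀ ℕ,
    ∃ w, G.cx.IsWalk (⟨occ, num⟩ : Conf V E) w (⟨∅, rh base occ num⟩ : Conf V E) := by
  induction occ using Finset.induction_on with
  | empty =>
    intro num
    refine ⟨[], ?_⟩
    change (⟨∅, num⟩ : Conf V E) = ⟨∅, rh base ∅ num⟩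
    rw [rh_empty]
  | insert v occ hv ih =>
    intro num
    obtain ⟨w, hw⟩ := ih (num + δ (base v).1)
    have h : G.vt (base v) ∉ occ := by rw [hb]; exact hv
    refine ⟨(mkE G (base v) occ num h, true) :: w, ?_, ?_⟩
    · change (⟨insert (G.vt (base v)) occ, num⟩ : Conf V E) = ⟨insert v occ, num⟩
      rw [hb]
    · rw [rh_insert base v occ num hv, ← rh_add]
      exact hw

private theorem sum_domCongr {E E' : Type} (e : E' ≃ E) (M : E →₀ ℕ) :
    Finsupp.degree ((Finsupp.domCongr e : (E' →₀ ℕ) ≃+ (E →₀ ℕ)).symm M) =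
      Finsupp.degree M := by
  have h : (Finsupp.degree : (E' →₀ ℕ) →+ ℕ).comp
      ((Finsupp.domCongr e : (E' →₀ ℕ) ≃+ (E →₀ ℕ)).symm : (E →₀ ℕ) →+ (E' →₀ ℕ)) =
      Finsupp.degree := by
    apply Finsupp.addHom_ext
    intro x y
    simp [Finsupp.degree_single]
  exact DFunLike.congr_fun h M

private theorem mu_delta {E E' : Type} (e : E' ≃ E) (x : E') :
    (Finsupp.domCongr e : (E' →₀ ℕ) ≃+ (E →₀ ℕ)) (δ x) = δ (e x) := by
  simp

private theorem mu_symm_delta {E E' : Type} (e : E' ≃ E) (x : E') :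
    (Finsupp.domCongr e : (E' →₀ ℕ) ≃+ (E →₀ ℕ)).symm (δ (e x)) = δ x := by
  rw [AddEquiv.symm_apply_eq, mu_delta]

theorem Rz.pid_red {V E V' J E' : Type} [DecidableEq V] {G : Gr V E} {S : DG V' J E'}
    (R : Rz G S) (c : Conf V E) {Gp : Type} [Group Gp] (D : PiD G.cx c Gp) :
    ∃ M : E' →₀ ℕ, (M.sum fun _ k => k) = c.card ∧ Nonempty (PiD S.cx M Gp) := by
  classical
  obtain ⟨base, hb, hbi, hcov, hne⟩ := R.exists_base
  obtain ⟨w0, hw0⟩ := base_walk G base hb c.occ c.num
  obtain ⟨D0⟩ := pid_base D hw0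
  clear hw0 w0 D
  generalize hM₀ : rh base c.occ c.num = M₀ at D0
  let μ : (E' →₀ ℕ) ≃+ (E →₀ ℕ) := Finsupp.domCongr R.ie
  have hμ : ∀ x, μ (δ x) = δ (R.ie x) := mu_delta R.ie
  have hμs : ∀ x, μ.symm (δ (R.ie x)) = δ x := mu_symm_delta R.ie
  refine ⟨μ.symm M₀, ?_, ?_⟩
  · have h1 : Finsupp.degree (μ.symm M₀) = Finsupp.degree M₀ := sum_domCongr R.ie M₀
    have h2 : Finsupp.degree M₀ = c.card := by
      rw [← hM₀]
      unfold rh Conf.card
      rw [map_add, map_sum]
      simp only [Finsupp.degree_single, Finset.sum_const, smul_eq_mul, mul_one]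
      rw [add_comm]
      rfl
    exact h1.trans h2
  let gg : Dart E → Finset V → (E →₀ ℕ) → Gp := fun d occ num =>
    if h : G.vt d ∉ occ then D0.g (mkE G d occ num h) else 1
  have hgg : ∀ d occ num (h : G.vt d ∉ occ), gg d occ num = D0.g (mkE G d occ num h) :=
    fun d occ num h => dif_pos h
  have hG : GRel G gg := by
    intro x y occ num hxy hx hy
    have hx' : G.vt x ∉ insert (G.vt y) occ := by
      rw [Finset.mem_insert]
      rintro (h | h)
      · exact hxy h
      · exact hx h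
    have hy' : G.vt y ∉ insert (G.vt x) occ := by
      rw [Finset.mem_insert]
      rintro (h | h)
      · exact hxy h.symm
      · exact hy h
    rw [hgg _ _ _ hx', hgg _ _ _ hy, hgg _ _ _ hy', hgg _ _ _ hx]
    apply D0.sq
    exact ⟨x, y, ⟨occ, num⟩, hxy, hx, hy, rfl, rfl, rfl, rfl⟩
  obtain ⟨Φ, hΦ0, hΦ1, hΦ2⟩ := exists_pot G base hb gg hG
  have hbj : ∀ j, base (G.vt (R.jD j)) = R.bD (S.vt j) := by
    intro j
    rw [R.jD_vt, hbi]
  let g' : S.cx.Ed → Gp := fun p =>
    (gg (R.bD (S.vt p.1)) ∅ (μ p.2))⁻¹ * gg (R.jD p.1) ∅ (μ p.2)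
  have hg' : ∀ j N, g' ((j, N) : J × (E' →₀ ℕ)) =
    (gg (R.bD (S.vt j)) ∅ (μ N))⁻¹ * gg (R.jD j) ∅ (μ N) := fun j N => rfl
  -- the lift of one edge
  have hlift1 : ∀ j, G.vt (R.bD (S.vt j)) = G.vt (R.jD j) := by
    intro j
    rw [R.bD_vt, R.jD_vt]
  refine ⟨⟨g', ?_, ?_, ?_⟩⟩
  · rintro a b c d ⟨i, j, N, hij, rfl, rfl, rfl, rfl⟩
    have hvw : G.vt (R.jD i) ≠ G.vt (R.jD j) := by
      rw [R.jD_vt, R.jD_vt]
      exact fun h => hij (R.iv_inj h)
    rw [hg', hg', hg', hg']
    simp only [map_add, hμ, ← R.bD_ed, ← R.jD_ed]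
    have e : ∀ x y : Dart E, G.vt x = G.vt (R.jD i) → G.vt y = G.vt (R.jD j) →
        gg x ∅ (μ N + δ y.1) = (gg y {G.vt (R.jD i)} (μ N))⁻¹ * (gg x {G.vt (R.jD j)} (μ N) *
          gg y ∅ (μ N + δ x.1)) := by
      intro x y hx hy
      have h := hG x y ∅ (μ N) (by rw [hx, hy]; exact hvw) (Finset.notMem_empty _)
        (Finset.notMem_empty _)
      rw [hx, hy, insert_empty_eq, insert_empty_eq] at h
      rw [h]
      group
    rw [e (R.bD (S.vt i)) (R.bD (S.vt j)) (hlift1 i) (hlift1 j),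
      e (R.jD i) (R.bD (S.vt j)) rfl (hlift1 j),
      e (R.bD (S.vt i)) (R.jD j) (hlift1 i) rfl,
      e (R.jD i) (R.jD j) rfl rfl]
    group
  · -- surjectivity
    have hone : ∀ (d : Dart E) (occ : Finset V) (num : E →₀ ℕ) (h : G.vt d ∉ occ),
        ∃ w, S.cx.IsWalk (μ.symm (rh base (insert (G.vt d) occ) num)) w
          (μ.symm (rh base occ (num + δ d.1))) ∧
          D0.g (mkE G d occ num h) = Φ (insert (G.vt d) occ) num * S.cx.val g' w *
            (Φ occ (num + δ d.1))⁻¹ := by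
      intro d occ num h
      rcases hcov d with hd | ⟨j, hj⟩
      · refine ⟨[], ?_, ?_⟩
        · change μ.symm (rh base (insert (G.vt d) occ) num) = μ.symm (rh base occ (num + δ d.1))
          rw [rh_insert base _ _ _ h, rh_add, ← hd]
        · rw [hΦ1 _ _ _ h, ← hd, ← hgg d occ num h]
          simp [Cx.val]
      · refine ⟨[(((j, μ.symm (rh base occ num)) : J × (E' →₀ ℕ)), true)], ⟨?_, ?_⟩, ?_⟩
        · change μ.symm (rh base occ num) + δ (S.be (S.vt j)) =
            μ.symm (rh base (insert (G.vt d) occ) num)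
          rw [rh_insert base _ _ _ h, map_add, ← hj, hbj, R.bD_ed, hμs]
        · change μ.symm (rh base occ num) + δ (S.ed j) =
            μ.symm (rh base occ (num + δ d.1))
          rw [rh_add, map_add, ← hj, R.jD_ed, hμs]
        · have h2 := hΦ2 d occ num h
          have h3 : S.cx.val g' [(((j, μ.symm (rh base occ num)) : J × (E' →₀ ℕ)), true)] =
              (gg (base (G.vt d)) ∅ (rh base occ num))⁻¹ * gg d ∅ (rh base occ num) := by
            have h4 : S.cx.val g' [(((j, μ.symm (rh base occ num)) : J × (E' →₀ ℕ)), true)] =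
              g' ((j, μ.symm (rh base occ num)) : J × (E' →₀ ℕ)) := by
              simp [Cx.val]
            rw [h4, hg', ← hj, hbj, AddEquiv.apply_symm_apply]
          rw [h3, hΦ1 _ _ _ h, ← hgg d occ num h]
          rw [mul_assoc (gg (base (G.vt d)) occ num), ← mul_assoc (Φ occ _), ← h2]
          group
    have hall : ∀ (w : List (G.cx.Ed × Bool)) (x y : Conf V E), G.cx.IsWalk x w y →
        ∃ w', S.cx.IsWalk (μ.symm (rh base x.occ x.num)) w' (μ.symm (rh base y.occ y.num)) ∧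
          G.cx.val D0.g w = Φ x.occ x.num * S.cx.val g' w' * (Φ y.occ y.num)⁻¹ := by
      intro w
      induction w with
      | nil =>
        intro x y hxy
        have hxy' : x = y := hxy
        subst hxy'
        refine ⟨[], rfl, ?_⟩
        simp [Cx.val]
      | cons a w ih =>
        intro x y hxy
        obtain ⟨a, b⟩ := a
        obtain ⟨d, occ, num, h, rfl⟩ := exists_mkE G a
        obtain ⟨w1, hw1, hw1'⟩ := hone d occ num h
        obtain ⟨h5, h6⟩ := hxy
        obtain ⟨w2, hw2, hw2'⟩ := ih _ y h6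
        cases b
        · have h7 : (⟨occ, num + δ d.1⟩ : Conf V E) = x := h5
          subst h7
          have h8 : S.cx.IsWalk (μ.symm (rh base (insert (G.vt d) occ) num)) w2
            (μ.symm (rh base y.occ y.num)) := hw2
          have h9 : G.cx.val D0.g w = Φ (insert (G.vt d) occ) num * S.cx.val g' w2 *
            (Φ y.occ y.num)⁻¹ := hw2'
          refine ⟨S.cx.rev w1 ++ w2, Cx.isWalk_append (Cx.isWalk_rev hw1) h8, ?_⟩
          have h10 : G.cx.val D0.g ((mkE G d occ num h, false) :: w) =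
            (D0.g (mkE G d occ num h))⁻¹ * G.cx.val D0.g w := by
            simp [Cx.val]
          rw [h10, h9, hw1', Cx.val_append, Cx.val_rev]
          group
        · have h7 : (⟨insert (G.vt d) occ, num⟩ : Conf V E) = x := h5
          subst h7
          have h8 : S.cx.IsWalk (μ.symm (rh base occ (num + δ d.1))) w2
            (μ.symm (rh base y.occ y.num)) := hw2
          have h9 : G.cx.val D0.g w = Φ occ (num + δ d.1) * S.cx.val g' w2 *
            (Φ y.occ y.num)⁻¹ := hw2'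
          refine ⟨w1 ++ w2, Cx.isWalk_append hw1 h8, ?_⟩
          have h10 : G.cx.val D0.g ((mkE G d occ num h, true) :: w) =
            (D0.g (mkE G d occ num h)) * G.cx.val D0.g w := by
            simp [Cx.val]
          rw [h10, h9, hw1', Cx.val_append]
          group
    intro γ
    obtain ⟨w, hw, hw'⟩ := D0.surj γ
    obtain ⟨w', h1, h2⟩ := hall w _ _ hw
    refine ⟨w', ?_, ?_⟩
    · have h3 : rh base ∅ M₀ = M₀ := rh_empty base M₀
      have h4 : S.cx.IsWalk (μ.symm (rh base ∅ M₀)) w' (μ.symm (rh base ∅ M₀)) := h1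
      rw [h3] at h4
      exact h4
    · have h5 : G.cx.val D0.g w = Φ ∅ M₀ * S.cx.val g' w' * (Φ ∅ M₀)⁻¹ := h2
      rw [hΦ0] at h5
      rw [← hw', h5]
      group
  · intro L _ l hl
    let lf : Dart E → (E →₀ ℕ) → L := fun d Q =>
      if h : ∃ j, R.jD j = d then l ((h.choose, μ.symm Q) : J × (E' →₀ ℕ)) else 1
    have hjinj : Function.Injective R.jD := by
      intro j j' hjj
      have h3 : (Sum.elim R.jD R.bD) (.inl j) = (Sum.elim R.jD R.bD) (.inl j') := hjj
      exact Sum.inl.inj (R.inj h3)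
    have hlf1 : ∀ j Q, lf (R.jD j) Q = l ((j, μ.symm Q) : J × (E' →₀ ℕ)) := by
      intro j Q
      have h : ∃ j', R.jD j' = R.jD j := ⟨j, rfl⟩
      have h1 : lf (R.jD j) Q = l ((h.choose, μ.symm Q) : J × (E' →₀ ℕ)) := dif_pos h
      rw [h1, hjinj h.choose_spec]
    have hlf2 : ∀ d Q, d = base (G.vt d) → lf d Q = 1 := by
      intro d Q hd
      refine dif_neg ?_
      rintro ⟨j, hj⟩
      apply hne j
      rw [hj]
      exact hd
    let l' : G.cx.Ed → L := fun a => lf a.1.1 (rh base a.1.2.occ a.1.2.num)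
    have hl'm : ∀ d occ num h, l' (mkE G d occ num h) = lf d (rh base occ num) :=
      fun d occ num h => rfl
    have hl' : G.cx.Lab l' := by
      rintro a b c d ⟨x, y, m, hxy, hx, hy, ha, hb', hc, hd⟩
      change lf a.1.1 (rh base a.1.2.occ a.1.2.num) * lf b.1.1 (rh base b.1.2.occ b.1.2.num) =
        lf c.1.1 (rh base c.1.2.occ c.1.2.num) * lf d.1.1 (rh base d.1.2.occ d.1.2.num)
      rw [ha, hb', hc, hd]
      change lf x (rh base (insert (G.vt y) m.occ) m.num) * lf y (rh base m.occ (m.num + δ x.1)) =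
        lf y (rh base (insert (G.vt x) m.occ) m.num) * lf x (rh base m.occ (m.num + δ y.1))
      rw [rh_insert base _ _ _ hx, rh_insert base _ _ _ hy, rh_add, rh_add]
      rcases hcov x with h1 | ⟨i, hi⟩
      · rcases hcov y with h2 | ⟨j, hj⟩
        · rw [hlf2 x _ h1, hlf2 x _ h1, hlf2 y _ h2, hlf2 y _ h2]
        · rw [hlf2 x _ h1, hlf2 x _ h1, ← h1, one_mul, mul_one]
      · rcases hcov y with h2 | ⟨j, hj⟩
        · rw [hlf2 y _ h2, hlf2 y _ h2, ← h2, one_mul, mul_one]
        · subst hi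
          subst hj
          rw [hlf1, hlf1, hlf1, hlf1]
          simp only [map_add, hbj, R.bD_ed, R.jD_ed, hμs]
          apply hl
          refine ⟨i, j, μ.symm (rh base m.occ m.num), ?_, rfl, rfl, rfl, rfl⟩
          intro h
          apply hxy
          rw [R.jD_vt, R.jD_vt, h]
    obtain ⟨φ, hφ⟩ := D0.univ L l' hl'
    refine ⟨φ, ?_⟩
    have hall : ∀ (w : List (S.cx.Ed × Bool)) (N₁ N₂ : E' →₀ ℕ), S.cx.IsWalk N₁ w N₂ →
        ∃ w', G.cx.IsWalk (⟨∅, μ N₁⟩ : Conf V E) w' (⟨∅, μ N₂⟩ : Conf V E) ∧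
          G.cx.val D0.g w' = S.cx.val g' w ∧ G.cx.val l' w' = S.cx.val l w := by
      intro w
      induction w with
      | nil =>
        intro N₁ N₂ hN
        have hN' : N₁ = N₂ := hN
        subst hN'
        exact ⟨[], rfl, rfl, rfl⟩
      | cons a w ih =>
        intro N₁ N₂ hN
        obtain ⟨⟨j, N⟩, b⟩ := a
        obtain ⟨h5, h6⟩ := hN
        obtain ⟨w2, hw2, hw2', hw2''⟩ := ih _ N₂ h6
        have hE1 : G.vt (R.bD (S.vt j)) ∉ (∅ : Finset V) := Finset.notMem_empty _
        have hE2 : G.vt (R.jD j) ∉ (∅ : Finset V) := Finset.notMem_empty _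
        have hbase : R.bD (S.vt j) = base (G.vt (R.bD (S.vt j))) := by
          rw [R.bD_vt, hbi]
        have hw1 : G.cx.IsWalk (⟨∅, μ (N + δ (S.be (S.vt j)))⟩ : Conf V E)
            [(mkE G (R.bD (S.vt j)) ∅ (μ N) hE1, false), (mkE G (R.jD j) ∅ (μ N) hE2, true)]
            (⟨∅, μ (N + δ (S.ed j))⟩ : Conf V E) := by
          refine ⟨?_, ?_, ?_⟩
          · change (⟨∅, μ N + δ (R.bD (S.vt j)).1⟩ : Conf V E) = ⟨∅, μ (N + δ (S.be (S.vt j)))⟩
            rw [map_add, hμ, R.bD_ed]
          · change (⟨insert (G.vt (R.jD j)) ∅, μ N⟩ : Conf V E) =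
              ⟨insert (G.vt (R.bD (S.vt j))) ∅, μ N⟩
            rw [hlift1]
          · change (⟨∅, μ N + δ (R.jD j).1⟩ : Conf V E) = ⟨∅, μ (N + δ (S.ed j))⟩
            rw [map_add, hμ, R.jD_ed]
        have hv1 : G.cx.val D0.g [(mkE G (R.bD (S.vt j)) ∅ (μ N) hE1, false),
            (mkE G (R.jD j) ∅ (μ N) hE2, true)] = g' ((j, N) : J × (E' →₀ ℕ)) := by
          rw [hg', hgg _ _ _ hE1, hgg _ _ _ hE2]
          simp [Cx.val]
        have hv2 : G.cx.val l' [(mkE G (R.bD (S.vt j)) ∅ (μ N) hE1, false),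
            (mkE G (R.jD j) ∅ (μ N) hE2, true)] = l ((j, N) : J × (E' →₀ ℕ)) := by
          have h11 : G.cx.val l' [(mkE G (R.bD (S.vt j)) ∅ (μ N) hE1, false),
            (mkE G (R.jD j) ∅ (μ N) hE2, true)] =
            (l' (mkE G (R.bD (S.vt j)) ∅ (μ N) hE1))⁻¹ * l' (mkE G (R.jD j) ∅ (μ N) hE2) := by
            simp [Cx.val]
          rw [h11, hl'm, hl'm, hlf2 _ _ hbase, hlf1, rh_empty, AddEquiv.symm_apply_apply]
          simp
        cases b
        · have h7 : N + δ (S.ed j) = N₁ := h5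
          subst h7
          refine ⟨G.cx.rev _ ++ w2, Cx.isWalk_append (Cx.isWalk_rev hw1) hw2, ?_, ?_⟩
          · rw [Cx.val_append, Cx.val_rev, hv1, hw2']
            simp [Cx.val]
          · rw [Cx.val_append, Cx.val_rev, hv2, hw2'']
            simp [Cx.val]
        · have h7 : N + δ (S.be (S.vt j)) = N₁ := h5
          subst h7
          refine ⟨_ ++ w2, Cx.isWalk_append hw1 hw2, ?_, ?_⟩
          · rw [Cx.val_append, hv1, hw2']
            simp [Cx.val]
          · rw [Cx.val_append, hv2, hw2'']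
            simp [Cx.val]
    intro w hw
    obtain ⟨w', h1, h2, h3⟩ := hall w _ _ hw
    rw [AddEquiv.apply_symm_apply] at h1
    rw [← h2, ← h3]
    exact hφ w' h1

end GB
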