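import Pool.Agent.Helper95.GB.RD.Defs

/-! # GB/RD/Theta: a `Theta_4` in the reduced graph gives one in the graph (stub, prove in place)

Let `dt = Sum.elim R.jD R.bD`.  `G.vt (dt d) = iv (S.dv d)`, `(dt d).1 = ie (S.de d)`.  If `S.de d = S.de d'` and `d ≠ d'` then `dt d' = opp (dt d)`
(same edge, different by `inj`).  Map a walk `l` to `l.map (fun p => dt p.1)`: walks from `u` to `v` become walks from `iv u` to `iv v`, and
`G.support (iv u) (l.map _) = (S.support u l).map iv` (induction on `l`, using the walk property).  `Nodup` by `iv_inj`.  Disjointness: by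
`iv_inj` and injectivity of `ie`.
-/

set_option autoImplicit false

namespace GB

section

variable {V E V' J E' : Type} {G : Gr V E} {S : DG V' J E'}

private def dt (R : Rz G S) : J ⊕ V' → Dart E := Sum.elim R.jD R.bD

private theorem dt_vt (R : Rz G S) (d : J ⊕ V') : G.vt (dt R d) = R.iv (S.dv d) := by
  cases d with
  | inl j => exact R.jD_vt j
  | inr v => exact R.bD_vt v

private theorem dt_ed (R : Rz G S) (d : J ⊕ V') : (dt R d).1 = R.ie (S.de d) := by
  cases d with
  | inl j => exact R.jD_ed j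
  | inr v => exact R.bD_ed v

private theorem dt_opp (R : Rz G S) {d d' : J ⊕ V'} (h : S.de d = S.de d') (hne : d ≠ d') :
    dt R d' = opp (dt R d) := by
  have h1 : (dt R d').1 = (dt R d).1 := by rw [dt_ed, dt_ed, h]
  have h2 : dt R d' ≠ dt R d := fun e => hne (R.inj e).symm
  have h3 : (dt R d').2 ≠ (dt R d).2 := fun e => h2 (Prod.ext h1 e)
  refine Prod.ext h1 ?_
  show (dt R d').2 = !(dt R d).2
  revert h3
  cases (dt R d').2 <;> cases (dt R d).2 <;> simp

private theorem walk_map (R : Rz G S) (v : V') :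
    ∀ (l : List ((J ⊕ V') × (J ⊕ V'))) (u : V'), S.IsWalk u l v →
      G.IsWalk (R.iv u) (l.map (fun p => dt R p.1)) (R.iv v) ∧
      (l.map (fun p => dt R p.1)).map (fun d => G.vt (opp d))
        = (l.map (fun p => S.dv p.2)).map R.iv := by
  intro l
  induction l with
  | nil =>
    intro u h
    exact ⟨congrArg R.iv h, rfl⟩
  | cons p l ih =>
    intro u h
    obtain ⟨h1, h2, h3, h4⟩ := h
    obtain ⟨i1, i2⟩ := ih _ h4
    have h5 : G.vt (opp (dt R p.1)) = R.iv (S.dv p.2) := by
      rw [← dt_opp R h2 h3, dt_vt]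
    refine ⟨⟨?_, ?_⟩, ?_⟩
    · rw [dt_vt, h1]
    · rw [h5]
      exact i1
    · simp only [List.map_cons, List.cons.injEq]
      exact ⟨h5, i2⟩

end

theorem Rz.theta {V E V' J E' : Type} {G : Gr V E} {S : DG V' J E'} (R : Rz G S)
    (h : S.HasTheta4) : G.HasTheta4 := by
  obtain ⟨u, v, p, huv, h1, h2⟩ := h
  have hs : ∀ i, G.support (R.iv u) ((p i).map (fun q => dt R q.1))
      = (S.support u (p i)).map R.iv := by
    intro i
    unfold Gr.support DG.support
    rw [(walk_map R v (p i) u (h1 i).1).2]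
    rfl
  refine ⟨R.iv u, R.iv v, fun i => (p i).map (fun q => dt R q.1),
    fun e => huv (R.iv_inj e), ?_, ?_⟩
  · intro i
    refine ⟨(walk_map R v (p i) u (h1 i).1).1, ?_⟩
    rw [hs i]
    exact (h1 i).2.map R.iv_inj
  · intro i j hij
    obtain ⟨h3, h4⟩ := h2 i j hij
    refine ⟨?_, ?_⟩
    · intro x hx hx'
      rw [hs i] at hx
      rw [hs j] at hx'
      obtain ⟨a, ha, rfl⟩ := List.mem_map.1 hx
      obtain ⟨b, hb, hab⟩ := List.mem_map.1 hx'
      have hba : b = a := R.iv_inj hab
      subst hba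
      rcases h3 _ ha hb with e | e
      · exact Or.inl (congrArg R.iv e)
      · exact Or.inr (congrArg R.iv e)
    · intro d hd d' hd'
      obtain ⟨q, hq, rfl⟩ := List.mem_map.1 hd
      obtain ⟨q', hq', rfl⟩ := List.mem_map.1 hd'
      rw [dt_ed, dt_ed]
      exact fun e => h4 q hq q' hq' (R.ie.injective e)

end GB
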