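import Pool.Agent.Helper95.GB.GE.Paths

/-! # GB/RD/Triv: trivial cases and connectedness (stub, prove in place)

* `genus1_trivial`: `K.Pi1 x` has only one element (`Quot.ind`, every closed walk is `[]`).  Take `S = Empty`, `R = ∅`:
`PresentedGroup ∅` over `Empty` has one element; both groups are trivial.
* `triv_zero`: `c.card = 0` means `c.occ = ∅`, `c.num = 0`.  A nonempty closed walk at `c` would start with an edge which starts or ends
at `c`; but its start has a nonempty `occ`, and its end has `num = _ + δ _ ≠ 0`.
* `triv_empty`: if `E` is empty then there are no edges at all (`Dart E` is empty).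
* `reach`: let `Y` be a list of half-edges containing `t a` `M (EE.t a)` times and `m c` `M (EE.c c)` times (no `p`, `z`), of length
`≤ n = ∑ M`.  `Ax.rn_walk`: `rn (st n) Y` is a walk from `st n` to `fin (st n) Y`, which is `M` by `fin_eq`.
(For the list: `Finsupp.induction` or `Multiset.toList` of `M.toMultiset`.)
-/

set_option autoImplicit false

namespace GB

theorem genus1_trivial (K : Cx) (x : K.X) (h : ∀ w, K.IsWalk x w x → w = []) :
    Genus1 (K.Pi1 x) := by
  have h1 : ∀ a : K.Pi1 x, a = 1 := by
    intro a
    induction a using Quot.ind with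
    | mk p =>
      obtain ⟨w, hw⟩ := p
      have h2 := h w hw
      subst h2
      rfl
  have h3 : ∀ a : PresentedGroup (∅ : Set (FreeGroup Empty)), a = 1 := by
    intro a
    induction a using PresentedGroup.induction_on with
    | _ z =>
      have h4 : z = 1 := Subsingleton.elim _ _
      rw [h4]
      rfl
  refine ⟨Empty, ∅, fun r hr => absurd hr (Set.notMem_empty r), ⟨?_⟩⟩
  exact {
    toFun := fun _ => 1
    invFun := fun _ => 1
    left_inv := fun a => (h3 a).symm
    right_inv := fun a => (h1 a).symm
    map_mul' := fun _ _ => (mul_one 1).symm }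

theorem triv_zero {V E : Type} [DecidableEq V] (G : Gr V E) (c : Conf V E) (hc : c.card = 0)
    (w : List (G.cx.Ed × Bool)) (hw : G.cx.IsWalk c w c) : w = [] := by
  cases w with
  | nil => rfl
  | cons a w =>
    exfalso
    have h1 : G.cx.src a = c := hw.1
    unfold Conf.card at hc
    have hocc : c.occ = ∅ := Finset.card_eq_zero.1 (by omega)
    have hnum : ∀ e, c.num e = 0 := by
      intro e
      by_contra he
      have h2 : c.num.sum (fun _ k => k) = 0 := by omega
      have h3 := Finset.sum_eq_zero_iff.1 h2 e (Finsupp.mem_support_iff.2 he)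
      exact he h3
    obtain ⟨⟨⟨d, m⟩, hm⟩, b⟩ := a
    cases b with
    | true =>
      have h2 : (⟨insert (G.vt d) m.occ, m.num⟩ : Conf V E) = c := h1
      rw [← h2] at hocc
      exact absurd hocc (Finset.insert_ne_empty _ _)
    | false =>
      have h2 : (⟨m.occ, m.num + δ d.1⟩ : Conf V E) = c := h1
      have h3 := hnum d.1
      rw [← h2] at h3
      have h4 : m.num d.1 + (δ d.1 : E →₀ ℕ) d.1 = 0 := h3
      rw [Finsupp.single_eq_same] at h4
      omega

theorem triv_empty {V E : Type} [DecidableEq V] [IsEmpty E] (G : Gr V E) (c : Conf V E)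
    (w : List (G.cx.Ed × Bool)) (hw : G.cx.IsWalk c w c) : w = [] := by
  cases w with
  | nil => rfl
  | cons a w => exact isEmptyElim a.1.1.1.1

theorem triv_reach_list {W C : Type} (Z : Type) (M : EE W C →₀ ℕ) :
    ∃ (k : ℕ) (Y : List (JJ W C Z)), k + Y.length = M.sum (fun _ k => k) ∧
      k • δ (EE.r : EE W C) + (Y.map (fun x => δ (PD.ed x))).sum = M := by
  classical
  induction M using Finsupp.induction with
  | zero => exact ⟨0, [], by simp, by simp⟩
  | single_add e n M he hn ih =>
    obtain ⟨k, Y, h1, h2⟩ := ih
    have hs : (Finsupp.single e n + M).sum (fun _ k => k) = n + M.sum (fun _ k => k) := by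
      rw [Finsupp.sum_add_index' (fun _ => rfl) (fun _ _ _ => rfl), Finsupp.sum_single_index rfl]
    have key : ∀ x : JJ W C Z, PD.ed x = e →
        ∃ (k : ℕ) (Y : List (JJ W C Z)), k + Y.length = (Finsupp.single e n + M).sum (fun _ k => k) ∧
          k • δ (EE.r : EE W C) + (Y.map (fun x => δ (PD.ed x))).sum = Finsupp.single e n + M := by
      intro x hx
      refine ⟨k, List.replicate n x ++ Y, ?_, ?_⟩
      · rw [List.length_append, List.length_replicate, hs]
        omega
      · rw [List.map_append, List.sum_append, List.map_replicate, List.sum_replicate, hx,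
          add_left_comm, h2, Finsupp.smul_single, smul_eq_mul, mul_one]
    cases e with
    | r =>
      refine ⟨k + n, Y, ?_, ?_⟩
      · rw [hs]
        omega
      · rw [add_smul, add_assoc, add_left_comm, h2, Finsupp.smul_single, smul_eq_mul, mul_one]
    | t a => exact key (.t a) rfl
    | c c => exact key (.m c) rfl

theorem PD.Ax.reach {W C Z : Type} {P : PD W C Z} (h : P.Ax) (M : EE W C →₀ ℕ) :
    ∃ w, P.dg.cx.IsWalk (PD.st (M.sum fun _ k => k)) w M := by
  obtain ⟨k, Y, h1, h2⟩ := triv_reach_list Z M
  have h3 : (PD.st (W := W) (C := C) (M.sum fun _ k => k)) EE.r = M.sum fun _ k => k := by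
    unfold PD.st
    rw [Finsupp.smul_single, Finsupp.single_eq_same, smul_eq_mul, mul_one]
  have h4 := h.rn_walk (PD.st (M.sum fun _ k => k)) Y (by rw [h3]; omega)
  have h5 := PD.fin_eq (M.sum fun _ k => k) Y (by omega)
  have h6 : (M.sum fun _ k => k) - Y.length = k := by omega
  rw [h6, h2] at h5
  rw [h5] at h4
  exact ⟨_, h4⟩

end GB
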