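import Pool.Agent.Helper95.GB.Iface

/-! # GB/RD: realisation of a reduced complex in a graph -/

set_option autoImplicit false

namespace GB

/-- `S` is the graph `G` with a choice of base half-edges; a vertex of degree one may be missing in `S`. -/
structure Rz {V E V' J E' : Type} (G : Gr V E) (S : DG V' J E') where
  iv : V' → V
  ie : E' ≃ E
  bD : V' → Dart E
  jD : J → Dart E
  iv_inj : Function.Injective iv
  bD_vt : ∀ v, G.vt (bD v) = iv v
  bD_ed : ∀ v, (bD v).1 = ie (S.be v)
  jD_vt : ∀ j, G.vt (jD j) = iv (S.vt j)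
  jD_ed : ∀ j, (jD j).1 = ie (S.ed j)
  inj : Function.Injective (Sum.elim jD bD)
  cov : ∀ d : Dart E, (∃ j, jD j = d) ∨ (∃ v, bD v = d) ∨ (∀ d', G.vt d' = G.vt d → d' = d)
  surj : ∀ v : V, ∃ d : Dart E, G.vt d = v

/-- all particles in the vertices moved to the base edges -/
noncomputable def rh {V E : Type} (base : V → Dart E) (occ : Finset V) (num : E →₀ ℕ) :
    E →₀ ℕ := num + ∑ v ∈ occ, δ (base v).1

/-- relations of the 2-cells for a labelling written as a function `gg d occ num` -/
def GRel {V E L : Type} [DecidableEq V] [Group L] (G : Gr V E)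
    (gg : Dart E → Finset V → (E →₀ ℕ) → L) : Prop :=
  ∀ x y occ num, G.vt x ≠ G.vt y → G.vt x ∉ occ → G.vt y ∉ occ →
    gg x (insert (G.vt y) occ) num * gg y occ (num + δ x.1) =
      gg y (insert (G.vt x) occ) num * gg x occ (num + δ y.1)

end GB
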