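import Pool.Agent.Helper95.GB.RD.Defs

/-! # GB/RD/Pot: moving the particles to the base edges (stub, prove in place)

For a list `L` of different vertices, disjoint from `O`: `Ps L O num` is the value of moving the particles at the vertices of `L` one
after the other to their base edges, while the vertices in `O` stay occupied:
`Ps [] O num = 1`, `Ps (u :: L) O num = gg (base u) (O ∪ L.toFinset) num * Ps L O (num + δ (base u).1)`.
* permutation invariance: `List.Perm` induction; for the exchange of the first two elements `u, w` (`L' = L.toFinset ∪ O`) use `GRel` for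
`base u`, `base w` (`vt (base u) = u`): `gg (base u) (insert w L') num * gg (base w) L' (num + δ bu) =
gg (base w) (insert u L') num * gg (base u) L' (num + δ bw)`.
* pushing: for a half-edge `d` at `v`, `v ∉ L`, `v ∉ O`, `L` without repetitions and disjoint from `O`:
`gg d (O ∪ L.toFinset) num * Ps L O (num + δ d.1) = Ps L (insert v O) num * gg d O (num + ∑ u in L, δ (base u).1)`, by induction on
`L` with `GRel` for `d` and `base u`.
Let `Φ occ num = Ps occ.toList ∅ num`.  `Φ (insert v occ) num`: `(insert v occ).toList` is a permutation of `v :: occ.toList`.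
Third claim: apply pushing with `O = ∅`, `L = occ.toList` to `d` and to `b = base (vt d)` (both at `v = vt d`):
`gg d occ num * Φ occ (num + δ d.1) = Q * gg d ∅ (rh occ num)`, `gg b occ num * Φ occ (num + δ b.1) = Q * gg b ∅ (rh occ num)` with the
same `Q = Ps L {v} num`; eliminate `Q`.
-/

set_option autoImplicit false

namespace GB

/-- value of moving the particles in the list one after the other to their base edges -/
noncomputable def potPs {V E L : Type} [DecidableEq V] [Group L] (base : V → Dart E)
    (gg : Dart E → Finset V → (E →₀ ℕ) → L) : List V → Finset V → (E →₀ ℕ) → L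
  | [], _, _ => 1
  | u :: l, O, num => gg (base u) (O ∪ l.toFinset) num * potPs base gg l O (num + δ (base u).1)

theorem potPs_perm {V E L : Type} [DecidableEq V] [Group L] (G : Gr V E) (base : V → Dart E)
    (hb : ∀ v, G.vt (base v) = v) (gg : Dart E → Finset V → (E →₀ ℕ) → L)
    (hg : GRel G gg) {l l' : List V} (hp : l.Perm l') :
    l.Nodup → ∀ O : Finset V, (∀ u ∈ l, u ∉ O) → ∀ num,
      potPs base gg l O num = potPs base gg l' O num := by
  induction hp with
  | nil => intros; rfl
  | @cons x l l' hp ih =>
    intro hn O hO num
    rw [List.nodup_cons] at hn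
    simp only [potPs]
    rw [List.toFinset_eq_of_perm _ _ hp,
      ih hn.2 O (fun u hu => hO u (List.mem_cons_of_mem x hu))]
  | swap x y l =>
    intro hn O hO num
    rw [List.nodup_cons, List.nodup_cons] at hn
    obtain ⟨h1, h2, h3⟩ := hn
    simp only [potPs]
    have hyx : y ≠ x := fun hh => h1 (by simp [hh])
    have hy : y ∉ O ∪ l.toFinset := by
      rw [Finset.mem_union, List.mem_toFinset]
      rintro (hh | hh)
      · exact hO y (by simp) hh
      · exact h1 (List.mem_cons_of_mem x hh)
    have hx : x ∉ O ∪ l.toFinset := by
      rw [Finset.mem_union, List.mem_toFinset]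
      rintro (hh | hh)
      · exact hO x (by simp) hh
      · exact h2 hh
    have h4 := hg (base y) (base x) (O ∪ l.toFinset) num (by rw [hb, hb]; exact hyx)
      (by rw [hb]; exact hy) (by rw [hb]; exact hx)
    rw [hb, hb] at h4
    rw [List.toFinset_cons, List.toFinset_cons, Finset.union_insert, Finset.union_insert,
      ← mul_assoc, ← mul_assoc, h4, add_right_comm]
  | trans h1 h2 ih1 ih2 =>
    intro hn O hO num
    rw [ih1 hn O hO num, ih2 (h1.nodup_iff.1 hn) O (fun u hu => hO u (h1.mem_iff.2 hu)) num]

theorem potPs_push {V E L : Type} [DecidableEq V] [Group L] (G : Gr V E) (base : V → Dart E)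
    (hb : ∀ v, G.vt (base v) = v) (gg : Dart E → Finset V → (E →₀ ℕ) → L)
    (hg : GRel G gg) (d : Dart E) (O : Finset V) (hdO : G.vt d ∉ O) (l : List V) :
    l.Nodup → (∀ u ∈ l, u ∉ O) → G.vt d ∉ l → ∀ num,
      gg d (O ∪ l.toFinset) num * potPs base gg l O (num + δ d.1) =
        potPs base gg l (insert (G.vt d) O) num *
          gg d O (num + ∑ u ∈ l.toFinset, δ (base u).1) := by
  induction l with
  | nil =>
    intro _ _ _ num
    simp [potPs]
  | cons u l ih =>
    intro hn hO hd num
    rw [List.nodup_cons] at hn
    obtain ⟨h1, h2⟩ := hn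
    rw [List.mem_cons, not_or] at hd
    obtain ⟨hdu, hdl⟩ := hd
    have hu : u ∉ O ∪ l.toFinset := by
      rw [Finset.mem_union, List.mem_toFinset]
      rintro (hh | hh)
      · exact hO u (by simp) hh
      · exact h1 hh
    have hd' : G.vt d ∉ O ∪ l.toFinset := by
      rw [Finset.mem_union, List.mem_toFinset]
      rintro (hh | hh)
      · exact hdO hh
      · exact hdl hh
    have h4 := hg d (base u) (O ∪ l.toFinset) num (by rw [hb]; exact hdu) hd'
      (by rw [hb]; exact hu)
    rw [hb] at h4
    have h5 := ih h2 (fun w hw => hO w (List.mem_cons_of_mem u hw)) hdl (num + δ (base u).1)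
    simp only [potPs]
    rw [List.toFinset_cons, Finset.union_insert, ← mul_assoc, h4, mul_assoc,
      add_right_comm num (δ d.1), h5, ← mul_assoc, Finset.insert_union,
      Finset.sum_insert (by rw [List.mem_toFinset]; exact h1), add_assoc]

theorem exists_pot {V E L : Type} [DecidableEq V] [Group L] (G : Gr V E) (base : V → Dart E)
    (hb : ∀ v, G.vt (base v) = v) (gg : Dart E → Finset V → (E →₀ ℕ) → L)
    (hg : GRel G gg) : ∃ Φ : Finset V → (E →₀ ℕ) → L, (∀ num, Φ ∅ num = 1) ∧
      (∀ v occ num, v ∉ occ →
        Φ (insert v occ) num = gg (base v) occ num * Φ occ (num + δ (base v).1)) ∧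
      (∀ d occ num, G.vt d ∉ occ →
        (gg (base (G.vt d)) occ num)⁻¹ * gg d occ num * Φ occ (num + δ d.1) =
          Φ occ (num + δ (base (G.vt d)).1) * (gg (base (G.vt d)) ∅ (rh base occ num))⁻¹ *
            gg d ∅ (rh base occ num)) := by
  refine ⟨fun occ num => potPs base gg occ.toList ∅ num, ?_, ?_, ?_⟩
  · intro num
    simp [potPs]
  · intro v occ num hv
    change potPs base gg (insert v occ).toList ∅ num = _
    rw [potPs_perm G base hb gg hg (Finset.toList_insert hv) (Finset.nodup_toList _) ∅
      (fun u _ => Finset.notMem_empty u) num]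
    simp only [potPs, Finset.empty_union, Finset.toList_toFinset]
  · intro d occ num hd
    have key : ∀ d' : Dart E, G.vt d' = G.vt d →
        gg d' occ num * potPs base gg occ.toList ∅ (num + δ d'.1) =
          potPs base gg occ.toList {G.vt d} num * gg d' ∅ (rh base occ num) := by
      intro d' hd'
      have h1 := potPs_push G base hb gg hg d' ∅ (Finset.notMem_empty _) occ.toList
        (Finset.nodup_toList _) (fun u _ => Finset.notMem_empty u)
        (by rw [Finset.mem_toList, hd']; exact hd) num
      rw [Finset.empty_union, Finset.toList_toFinset, hd'] at h1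
      exact h1
    have h1 := key d rfl
    have h2 := key (base (G.vt d)) (hb _)
    change (gg (base (G.vt d)) occ num)⁻¹ * gg d occ num *
      potPs base gg occ.toList ∅ (num + δ d.1) = potPs base gg occ.toList ∅
        (num + δ (base (G.vt d)).1) * (gg (base (G.vt d)) ∅ (rh base occ num))⁻¹ *
          gg d ∅ (rh base occ num)
    have h3 : potPs base gg occ.toList {G.vt d} num =
        gg (base (G.vt d)) occ num * potPs base gg occ.toList ∅ (num + δ (base (G.vt d)).1) *
          (gg (base (G.vt d)) ∅ (rh base occ num))⁻¹ := by
      rw [h2, mul_inv_cancel_right]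
    rw [mul_assoc, h1, h3]
    group

end GB
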